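import Mathlib

/-!
Counting the index sets of alternating parity.
-/

namespace Pool.Agent.Lib.MP_df4edf_co

open Finset

/-- The number of elements of `J` below `j`. -/
def below (J : Finset ℕ) (j : ℕ) : ℕ := #(J.filter (fun x => x < j))

/-- The number of elements of `J` above `j`. -/
def above (J : Finset ℕ) (j : ℕ) : ℕ := #(J.filter (fun x => j < x))

lemma below_add_above (J : Finset ℕ) {j : ℕ} (hj : j ∈ J) : below J j + 1 + above J j = #J := by
  unfold below above
  have h1 : J = J.filter (fun x => x < j) ∪ ({j} ∪ J.filter (fun x => j < x)) := by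
    ext x
    simp only [mem_union, mem_filter, mem_singleton]
    constructor
    · intro hx
      rcases lt_trichotomy x j with h | h | h
      · exact Or.inl ⟨hx, h⟩
      · exact Or.inr (Or.inl h)
      · exact Or.inr (Or.inr ⟨hx, h⟩)
    · rintro (h | h | h)
      · exact h.1
      · exact h ▸ hj
      · exact h.1
  have h2 : Disjoint ({j} : Finset ℕ) (J.filter (fun x => j < x)) := by
    rw [disjoint_singleton_left]
    simp
  have h3 : Disjoint (J.filter (fun x => x < j)) ({j} ∪ J.filter (fun x => j < x)) := by
    rw [disjoint_left]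
    intro x hx hx'
    simp only [mem_union, mem_filter, mem_singleton] at hx hx'
    rcases hx' with h | h
    · omega
    · omega
  conv_rhs => rw [h1]
  rw [card_union_of_disjoint h3, card_union_of_disjoint h2, card_singleton]
  omega

lemma below_le (J : Finset ℕ) (j : ℕ) : below J j ≤ j := by
  unfold below
  have : J.filter (fun x => x < j) ⊆ range j := by
    intro x hx
    exact mem_range.2 (mem_filter.1 hx).2
  simpa using card_le_card this

lemma above_le (J : Finset ℕ) {m j : ℕ} (hJ : J ⊆ range m) (hj : j ∈ J) :
    above J j + j + 1 ≤ m := by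
  unfold above
  have h1 : J.filter (fun x => j < x) ⊆ Ioo j m := by
    intro x hx
    rw [mem_filter] at hx
    exact mem_Ioo.2 ⟨hx.2, mem_range.1 (hJ hx.1)⟩
  have h2 := card_le_card h1
  rw [Nat.card_Ioo] at h2
  have h3 := mem_range.1 (hJ hj)
  omega

lemma below_add_le (J : Finset ℕ) {j j' : ℕ} (hjj : j < j') :
    below J j' + j ≤ below J j + j' := by
  unfold below
  have h1 : J.filter (fun x => x < j') ⊆ J.filter (fun x => x < j) ∪ Ico j j' := by
    intro x hx
    rw [mem_filter] at hx
    rw [mem_union, mem_filter, mem_Ico]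
    by_cases h : x < j
    · exact Or.inl ⟨hx.1, h⟩
    · exact Or.inr ⟨by omega, hx.2⟩
  have h2 := (card_le_card h1).trans (card_union_le _ _)
  rw [Nat.card_Ico] at h2
  omega

/-- The stretching map. -/
def stretch (c : ℕ) (J : Finset ℕ) (j : ℕ) : ℕ := 2 * j + c - below J j

lemma stretch_add (c : ℕ) (J : Finset ℕ) (j : ℕ) : stretch c J j + below J j = 2 * j + c := by
  unfold stretch
  have := below_le J j
  omega

lemma stretch_lt (c : ℕ) (J : Finset ℕ) {j j' : ℕ} (h : j < j') :
    stretch c J j < stretch c J j' := by
  have h1 := stretch_add c J j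
  have h2 := stretch_add c J j'
  have h3 := below_add_le J h
  omega

lemma stretch_lt_iff (c : ℕ) (J : Finset ℕ) (j j' : ℕ) :
    stretch c J j < stretch c J j' ↔ j < j' := by
  constructor
  · intro h
    by_contra hn
    rcases Nat.lt_or_ge j' j with h1 | h1
    · have := stretch_lt c J h1
      omega
    · have : j = j' := by omega
      rw [this] at h
      omega
  · exact stretch_lt c J

lemma stretch_inj (c : ℕ) (J : Finset ℕ) : Function.Injective (stretch c J) := by
  intro j j' h
  rcases lt_trichotomy j j' with h1 | h1 | h1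
  · have := stretch_lt c J h1; omega
  · exact h1
  · have := stretch_lt c J h1; omega

/-- The stretched set. -/
def stSet (c : ℕ) (J : Finset ℕ) : Finset ℕ := J.image (stretch c J)

lemma stSet_card (c : ℕ) (J : Finset ℕ) : #(stSet c J) = #J :=
  card_image_of_injective _ (stretch_inj c J)

lemma below_stSet (c : ℕ) (J : Finset ℕ) (j : ℕ) :
    below (stSet c J) (stretch c J j) = below J j := by
  unfold below stSet
  rw [filter_image, card_image_of_injective _ (stretch_inj c J)]
  simp only [stretch_lt_iff]

lemma above_stSet (c : ℕ) (J : Finset ℕ) (j : ℕ) :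
    above (stSet c J) (stretch c J j) = above J j := by
  unfold above stSet
  rw [filter_image, card_image_of_injective _ (stretch_inj c J)]
  simp only [stretch_lt_iff]

lemma stSet_recover (c : ℕ) (J : Finset ℕ) :
    (stSet c J).image (fun i => (i + below (stSet c J) i - c) / 2) = J := by
  conv_lhs => rw [stSet, image_image]
  have : ∀ j ∈ J, ((fun i => (i + below (stSet c J) i - c) / 2) ∘ stretch c J) j = j := by
    intro j _
    simp only [Function.comp]
    rw [below_stSet, stretch_add]
    omega
  ext x
  simp only [mem_image]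
  constructor
  · rintro ⟨j, hj, rfl⟩
    have := this j hj
    rw [stSet] at this
    rw [this]
    exact hj
  · intro hx
    refine ⟨x, hx, ?_⟩
    have := this x hx
    rw [stSet] at this
    exact this

lemma stSet_injective (c : ℕ) : Function.Injective (stSet c) := by
  intro J J' h
  rw [← stSet_recover c J, ← stSet_recover c J', h]

/-- Index sets of alternating parity. -/
def Alt (I : Finset ℕ) : Prop := ∃ c : ℕ, ∀ i ∈ I, (above I i + i) % 2 = c

lemma alt_stSet (c : ℕ) (J : Finset ℕ) : Alt (stSet c J) := by
  refine ⟨(#J + 1 + c) % 2, ?_⟩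
  intro i hi
  unfold stSet at hi
  rw [mem_image] at hi
  obtain ⟨j, hj, rfl⟩ := hi
  rw [above_stSet]
  have h1 := below_add_above J hj
  have h2 := stretch_add c J j
  omega

lemma stSet_subset (c d n m : ℕ) (J : Finset ℕ) (hJ : J ⊆ range m) (hc : #J = d + 1)
    (hm : 2 * m + c ≤ n + d + 1) : stSet c J ⊆ range n := by
  intro i hi
  unfold stSet at hi
  rw [mem_image] at hi
  obtain ⟨j, hj, rfl⟩ := hi
  rw [mem_range]
  have h1 := below_add_above J hj
  have h2 := stretch_add c J j
  have h3 := above_le J hJ hj
  omega

lemma parity_disjoint (J J' : Finset ℕ) (hJ : J.Nonempty) : stSet 0 J ≠ stSet 1 J' := by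
  intro h
  obtain ⟨j, hj⟩ := hJ
  have h1 : stretch 0 J j ∈ stSet 0 J := mem_image_of_mem _ hj
  have h1' := h1
  rw [h] at h1'
  unfold stSet at h1'
  rw [mem_image] at h1'
  obtain ⟨j', hj', he⟩ := h1'
  have h2 := stretch_add 0 J j
  have h3 := stretch_add 1 J' j'
  have h4 := below_stSet 0 J j
  have h5 := below_stSet 1 J' j'
  rw [he, ← h] at h5
  omega

/-- The number of alternating index sets. -/
theorem card_alt (d n : ℕ) (S : Finset (Finset ℕ))
    (hS : ∀ I, I ⊆ range n → #I = d + 1 → Alt I → I ∈ S) :
    ((n + d) / 2).choose (d + 1) + ((n + d + 1) / 2).choose (d + 1) ≤ #S := by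
  have h0 : #((powersetCard (d + 1) (range ((n + d + 1) / 2))).image (stSet 0))
      = ((n + d + 1) / 2).choose (d + 1) := by
    rw [card_image_of_injective _ (stSet_injective 0), card_powersetCard, card_range]
  have h1 : #((powersetCard (d + 1) (range ((n + d) / 2))).image (stSet 1))
      = ((n + d) / 2).choose (d + 1) := by
    rw [card_image_of_injective _ (stSet_injective 1), card_powersetCard, card_range]
  have hdisj : Disjoint ((powersetCard (d + 1) (range ((n + d) / 2))).image (stSet 1))
      ((powersetCard (d + 1) (range ((n + d + 1) / 2))).image (stSet 0)) := by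
    rw [disjoint_left]
    intro I hI hI'
    rw [mem_image] at hI hI'
    obtain ⟨J', _, h2⟩ := hI
    obtain ⟨J, hJ, h3⟩ := hI'
    rw [mem_powersetCard] at hJ
    refine parity_disjoint J J' ?_ (h3.trans h2.symm)
    rw [← card_pos, hJ.2]
    omega
  rw [← h0, ← h1, ← card_union_of_disjoint hdisj]
  apply card_le_card
  intro I hI
  rw [mem_union, mem_image, mem_image] at hI
  rcases hI with ⟨J, hJ, rfl⟩ | ⟨J, hJ, rfl⟩
  · rw [mem_powersetCard] at hJ
    exact hS _ (stSet_subset 1 d n _ J hJ.1 hJ.2 (by omega)) (by rw [stSet_card, hJ.2])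
      (alt_stSet 1 J)
  · rw [mem_powersetCard] at hJ
    exact hS _ (stSet_subset 0 d n _ J hJ.1 hJ.2 (by omega)) (by rw [stSet_card, hJ.2])
      (alt_stSet 0 J)

end Pool.Agent.Lib.MP_df4edf_co
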