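import Pool.Agent.Lib.MP_df4edf_co.Geom

/-!
A common direction for all simplices with the same highest vertex (Helly's theorem).
-/

namespace Pool.Agent.Lib.MP_df4edf_co

open Finset

section Dir

variable {V : Type*} [NormedAddCommGroup V] [NormedSpace ℝ V] [FiniteDimensional ℝ V]
  [DecidableEq V]

/-- `w` is a positive combination of the edge vectors of `T` at `t`. -/
def InCone (T : Finset V) (t w : V) : Prop :=
  ∃ c : V → ℝ, (∀ s ∈ T.erase t, 0 < c s) ∧ w = ∑ s ∈ T.erase t, c s • (s - t)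

lemma inCone_comb {T : Finset V} {t w w' : V} (h : InCone T t w) (h' : InCone T t w')
    {a b : ℝ} (ha : 0 ≤ a) (hb : 0 ≤ b) (hab : 0 < a + b) : InCone T t (a • w + b • w') := by
  obtain ⟨c, hc, rfl⟩ := h
  obtain ⟨c', hc', rfl⟩ := h'
  refine ⟨fun s => a * c s + b * c' s, ?_, ?_⟩
  · intro s hs
    have h1 := hc s hs
    have h2 := hc' s hs
    rcases ha.eq_or_lt with h0 | h0
    · have hb' : 0 < b := by rw [← h0] at hab; simpa using hab
      rw [← h0]
      simpa using mul_pos hb' h2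
    · have := mul_pos h0 h1
      have := mul_nonneg hb h2.le
      simp only
      linarith
  · rw [Finset.smul_sum, Finset.smul_sum, ← Finset.sum_add_distrib]
    apply Finset.sum_congr rfl
    intro s _
    rw [smul_smul, smul_smul, ← add_smul]

lemma inCone_smul {T : Finset V} {t w : V} (h : InCone T t w) {a : ℝ} (ha : 0 < a) :
    InCone T t (a • w) := by
  obtain ⟨c, hc, rfl⟩ := h
  refine ⟨fun s => a * c s, fun s hs => mul_pos ha (hc s hs), ?_⟩
  rw [Finset.smul_sum]
  apply Finset.sum_congr rfl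
  intro s _
  rw [smul_smul]

lemma inCone_of_interior {T : Finset V} (h : Good T) {t x : V} (ht : t ∈ T)
    (hx : x ∈ interior (convexHull ℝ (T : Set V))) : InCone T t (x - t) := by
  rw [mem_interior_iff h] at hx
  refine ⟨fun s => lam T s x, fun s hs => hx s (Finset.mem_of_mem_erase hs), ?_⟩
  have h1 := lam_sum_smul h x
  have h2 := lam_sum_one h x
  rw [← Finset.add_sum_erase T _ ht] at h1 h2
  simp only [smul_sub]
  rw [Finset.sum_sub_distrib, ← Finset.sum_smul]
  have h3 : ∑ s ∈ T.erase t, lam T s x = 1 - lam T t x := by linarith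
  rw [h3]
  have h4 : ∑ s ∈ T.erase t, lam T s x • s = x - lam T t x • t := by
    rw [eq_sub_iff_add_eq, add_comm]; exact h1
  rw [h4, sub_smul, one_smul]
  abel

lemma inCone_neg {T : Finset V} {t w : V} (u : V →ₗ[ℝ] ℝ) (hne : (T.erase t).Nonempty)
    (hu : ∀ s ∈ T.erase t, u s < u t) (h : InCone T t w) : u w < 0 := by
  obtain ⟨c, hc, rfl⟩ := h
  rw [map_sum]
  apply Finset.sum_neg _ hne
  intro s hs
  rw [map_smul, map_sub, smul_eq_mul]
  exact mul_neg_of_pos_of_neg (hc s hs) (sub_neg.2 (hu s hs))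

/-- The common direction. -/
theorem exists_common_direction (u : V →ₗ[ℝ] ℝ) (t : V) (F : Finset (Finset V))
    (hd : 1 ≤ Module.finrank ℝ V)
    (hgood : ∀ T ∈ F, Good T) (hcard : ∀ T ∈ F, T.card = Module.finrank ℝ V + 1)
    (ht : ∀ T ∈ F, t ∈ T) (hu : ∀ T ∈ F, ∀ s ∈ T.erase t, u s < u t)
    (hF : ∀ G ⊆ F, G.card ≤ Module.finrank ℝ V →
      (⋂ T ∈ G, interior (convexHull ℝ (T : Set V))).Nonempty) :
    ∃ w : V, ∀ T ∈ F, InCone T t w := by
  classical
  rcases F.eq_empty_or_nonempty with rfl | hFne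
  · exact ⟨0, by simp⟩
  have hne : ∀ T ∈ F, (T.erase t).Nonempty := by
    intro T hT
    rw [← Finset.card_pos, Finset.card_erase_of_mem (ht T hT), hcard T hT]
    omega
  obtain ⟨T₀, hT₀⟩ := hFne
  obtain ⟨s₀, hs₀⟩ := hne T₀ hT₀
  have hu0 := hu T₀ hT₀ s₀ hs₀
  set e : ℝ := u t - u s₀ with he
  have hepos : 0 < e := by rw [he]; linarith
  set v₀ : V := e⁻¹ • (s₀ - t) with hv₀
  have huv₀ : u v₀ = -1 := by
    rw [hv₀, map_smul, map_sub, smul_eq_mul]
    have : u s₀ - u t = - e := by rw [he]; ring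
    rw [this]
    field_simp
  have hsurj : Function.Surjective u := by
    intro r
    refine ⟨(-r) • v₀, ?_⟩
    rw [map_smul, huv₀, smul_eq_mul]
    ring
  have hker : Module.finrank ℝ (LinearMap.ker u) + 1 = Module.finrank ℝ V := by
    have h1 := LinearMap.finrank_range_add_finrank_ker u
    rw [LinearMap.range_eq_top.2 hsurj, finrank_top, Module.finrank_self] at h1
    omega
  have hH := Convex.helly_theorem' (𝕜 := ℝ) (E := LinearMap.ker u)
    (F := fun T : Finset V => {k : LinearMap.ker u | InCone T t (v₀ + (k : V))}) (s := F) ?_ ?_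
  · obtain ⟨k, hk⟩ := hH
    refine ⟨v₀ + (k : V), ?_⟩
    intro T hT
    rw [Set.mem_iInter₂] at hk
    exact hk T hT
  · intro T hT k hk k' hk' a b ha hb hab
    have h1 := inCone_comb (a := a) (b := b) hk hk' ha hb (by rw [hab]; exact one_pos)
    have h2 : a • (v₀ + (k : V)) + b • (v₀ + (k' : V))
        = v₀ + ((a • k + b • k' : LinearMap.ker u) : V) := by
      have : (a + b) • v₀ = v₀ := by rw [hab, one_smul]
      rw [add_smul] at this
      rw [Submodule.coe_add, Submodule.coe_smul, Submodule.coe_smul, smul_add, smul_add]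
      conv_rhs => rw [← this]
      abel
    rw [h2] at h1
    exact h1
  · intro I hI hIc
    rw [hker] at hIc
    obtain ⟨x, hx⟩ := hF I hI hIc
    rw [Set.mem_iInter₂] at hx
    rcases I.eq_empty_or_nonempty with rfl | hIne
    · exact ⟨0, by simp⟩
    obtain ⟨T₁, hT₁⟩ := hIne
    have hneg : u (x - t) < 0 :=
      inCone_neg u (hne T₁ (hI hT₁)) (hu T₁ (hI hT₁))
        (inCone_of_interior (hgood T₁ (hI hT₁)) (ht T₁ (hI hT₁)) (hx T₁ hT₁))
    set q : ℝ := (- u (x - t))⁻¹ with hq
    have hqpos : 0 < q := by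
      rw [hq]; exact inv_pos.2 (by linarith)
    have huq : u (q • (x - t)) = -1 := by
      rw [map_smul, smul_eq_mul, hq]
      have : u (x - t) ≠ 0 := hneg.ne
      rw [inv_neg, neg_mul, inv_mul_cancel₀ this]
    refine ⟨⟨q • (x - t) - v₀, ?_⟩, ?_⟩
    · rw [LinearMap.mem_ker, map_sub, huq, huv₀]
      ring
    · rw [Set.mem_iInter₂]
      intro T hT
      have h1 := inCone_smul (inCone_of_interior (hgood T (hI hT)) (ht T (hI hT)) (hx T hT)) hqpos
      show InCone T t (v₀ + (q • (x - t) - v₀))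
      rw [add_sub_cancel]
      exact h1

end Dir

end Pool.Agent.Lib.MP_df4edf_co
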