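import Mathlib

/-!
Barycentric coordinates with respect to the vertex set of a simplex.
-/

namespace Pool.Agent.Lib.MP_df4edf_co

open Finset

section Geom

variable {V : Type*} [NormedAddCommGroup V] [NormedSpace ℝ V]

/-- A finite set which is the vertex set of a full-dimensional simplex. -/
structure Good (T : Finset V) : Prop where
  ind : AffineIndependent ℝ ((↑) : T → V)
  span : affineSpan ℝ (T : Set V) = ⊤

lemma Good.of_card [FiniteDimensional ℝ V] {T : Finset V}
    (hi : AffineIndependent ℝ ((↑) : T → V)) (hc : T.card = Module.finrank ℝ V + 1) : Good T := by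
  refine ⟨hi, ?_⟩
  have h := (hi.affineSpan_eq_top_iff_card_eq_finrank_add_one).2 (by rw [Fintype.card_coe, hc])
  rwa [Subtype.range_coe] at h

/-- The affine basis of a simplex. -/
noncomputable def Good.basis {T : Finset V} (h : Good T) : AffineBasis T ℝ V :=
  ⟨((↑) : T → V), h.ind, by rw [Subtype.range_coe]; exact h.span⟩

lemma Good.basis_apply {T : Finset V} (h : Good T) (p : T) : h.basis p = (p : V) := rfl

open Classical in
/-- `lam T p x` : barycentric coordinate of `x` at the vertex `p` of `T`. -/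
noncomputable def lam (T : Finset V) (p : V) : V →ᵃ[ℝ] ℝ :=
  if h : Good T ∧ p ∈ T then h.1.basis.coord ⟨p, h.2⟩ else AffineMap.const ℝ V 0

lemma lam_eq {T : Finset V} (h : Good T) {p : V} (hp : p ∈ T) :
    lam T p = h.basis.coord ⟨p, hp⟩ := by
  unfold lam
  rw [dif_pos ⟨h, hp⟩]

lemma lam_self {T : Finset V} (h : Good T) {p : V} (hp : p ∈ T) : lam T p p = 1 := by
  rw [lam_eq h hp]
  exact h.basis.coord_apply_eq ⟨p, hp⟩

lemma lam_ne {T : Finset V} (h : Good T) {p q : V} (hp : p ∈ T) (hq : q ∈ T) (hpq : p ≠ q) :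
    lam T p q = 0 := by
  rw [lam_eq h hp]
  exact h.basis.coord_apply_ne (i := ⟨p, hp⟩) (j := ⟨q, hq⟩)
    (fun he => hpq (congrArg Subtype.val he))

lemma lam_sum_one {T : Finset V} (h : Good T) (x : V) : ∑ p ∈ T, lam T p x = 1 := by
  rw [← Finset.sum_coe_sort, ← h.basis.sum_coord_apply_eq_one x]
  apply Finset.sum_congr rfl
  intro p _
  rw [lam_eq h p.2]

lemma lam_sum_smul {T : Finset V} (h : Good T) (x : V) : ∑ p ∈ T, lam T p x • p = x := by
  rw [← Finset.sum_coe_sort T (fun p => lam T p x • p)]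
  conv_rhs => rw [← h.basis.linear_combination_coord_eq_self x]
  apply Finset.sum_congr rfl
  intro p _
  rw [lam_eq h p.2]
  rfl

lemma mem_interior_iff {T : Finset V} (h : Good T) (x : V) :
    x ∈ interior (convexHull ℝ (T : Set V)) ↔ ∀ p ∈ T, 0 < lam T p x := by
  have h1 := h.basis.interior_convexHull
  have h2 : Set.range h.basis = (T : Set V) := Subtype.range_coe
  rw [h2] at h1
  rw [h1]
  constructor
  · intro hx p hp
    rw [lam_eq h hp]
    exact hx ⟨p, hp⟩
  · intro hx p
    have := hx p p.2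
    rwa [lam_eq h p.2] at this

lemma affine_sum (f : V →ᵃ[ℝ] ℝ) (Q : Finset V) (w : V → ℝ) (hw : ∑ q ∈ Q, w q = 1) :
    f (∑ q ∈ Q, w q • q) = ∑ q ∈ Q, w q * f q := by
  have h := Q.map_affineCombination (fun q : V => q) w hw f
  rw [Finset.affineCombination_eq_linear_combination _ _ _ hw,
    Finset.affineCombination_eq_linear_combination _ _ _ hw] at h
  simpa using h

lemma affine_sub (f : V →ᵃ[ℝ] ℝ) (x y : V) : f.linear (x - y) = f x - f y := by
  have := f.linearMap_vsub x y
  simpa using this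

/-- If `x` is interior to `T` and to `T'`, then some vertex of `T` is strictly on the positive
side of the facet of `T'` opposite `t'`. -/
lemma exists_pos_of_common {T T' : Finset V} (h : Good T) (h' : Good T') {t' x : V}
    (ht' : t' ∈ T') (hx : x ∈ interior (convexHull ℝ (T : Set V)))
    (hx' : x ∈ interior (convexHull ℝ (T' : Set V))) : ∃ p ∈ T, 0 < lam T' t' p := by
  rw [mem_interior_iff h] at hx
  rw [mem_interior_iff h'] at hx'
  have h1 := hx' t' ht'
  have h2 : lam T' t' x = ∑ p ∈ T, lam T p x * lam T' t' p := by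
    have := affine_sum (lam T' t') T (fun p => lam T p x) (lam_sum_one h x)
    rwa [lam_sum_smul h x] at this
  rw [h2] at h1
  obtain ⟨p, hp, hpp⟩ := Finset.exists_lt_of_sum_lt (s := T) (f := fun _ => (0 : ℝ))
    (g := fun p => lam T p x * lam T' t' p) (by simpa using h1)
  exact ⟨p, hp, pos_of_mul_pos_right hpp (hx p hp).le⟩

/-- The cone identity. -/
lemma cone_identity [DecidableEq V] {T T' : Finset V} (h : Good T) {t w : V} (ht : t ∈ T)
    (c c' : V → ℝ)
    (hw : w = ∑ s ∈ T.erase t, c s • (s - t)) (hw' : w = ∑ s ∈ T'.erase t, c' s • (s - t)) :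
    ∑ s ∈ T'.erase t, c' s * lam T t s
      = ∑ s ∈ T'.erase t, c' s - ∑ s ∈ T.erase t, c s := by
  have h1 : (lam T t).linear w = - ∑ s ∈ T.erase t, c s := by
    rw [hw, map_sum, ← Finset.sum_neg_distrib]
    apply Finset.sum_congr rfl
    intro s hs
    rw [Finset.mem_erase] at hs
    rw [map_smul, affine_sub, lam_self h ht, lam_ne h ht hs.2 (Ne.symm hs.1), smul_eq_mul]
    ring
  have h2 : (lam T t).linear w = ∑ s ∈ T'.erase t, c' s * lam T t s - ∑ s ∈ T'.erase t, c' s := by
    rw [hw', map_sum, ← Finset.sum_sub_distrib]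
    apply Finset.sum_congr rfl
    intro s hs
    rw [map_smul, affine_sub, lam_self h ht, smul_eq_mul]
    ring
  linarith

/-- General position in the form used below. -/
def GenPos (P : Finset V) : Prop :=
  ∀ T ⊆ P, T.card = Module.finrank ℝ V + 1 → AffineIndependent ℝ ((↑) : T → V)

lemma mem_of_lam_eq_zero [DecidableEq V] [FiniteDimensional ℝ V] {P T : Finset V} (hP : GenPos P)
    (hTP : T ⊆ P) (hT : T.card = Module.finrank ℝ V + 1) (h : Good T)
    {p q : V} (hp : p ∈ T) (hq : q ∈ P) (h0 : lam T p q = 0) : q ∈ T := by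
  by_contra hqT
  have hcard : (insert q (T.erase p)).card = Module.finrank ℝ V + 1 := by
    rw [Finset.card_insert_of_notMem (fun hm => hqT (Finset.mem_of_mem_erase hm)),
      Finset.card_erase_of_mem hp, hT]
    rfl
  have hsub : insert q (T.erase p) ⊆ P := by
    intro x hx
    rw [Finset.mem_insert] at hx
    rcases hx with rfl | hx
    · exact hq
    · exact hTP (Finset.mem_of_mem_erase hx)
  have hind := hP _ hsub hcard
  have hg := Good.of_card hind hcard
  have hq' : q ∈ insert q (T.erase p) := Finset.mem_insert_self _ _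
  have h1 : ∑ s ∈ T.erase p, lam T s q = 1 := by
    have := lam_sum_one h q
    rw [← Finset.add_sum_erase T _ hp, h0, zero_add] at this
    exact this
  have h2 : ∑ s ∈ T.erase p, lam T s q • s = q := by
    have := lam_sum_smul h q
    rw [← Finset.add_sum_erase T _ hp, h0, zero_smul, zero_add] at this
    exact this
  have h3 := affine_sum (lam (insert q (T.erase p)) q) (T.erase p) (fun s => lam T s q) h1
  rw [h2, lam_self hg hq'] at h3
  have h4 : ∑ s ∈ T.erase p, lam T s q * lam (insert q (T.erase p)) q s = 0 := by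
    apply Finset.sum_eq_zero
    intro s hs
    rw [lam_ne hg hq' (Finset.mem_insert_of_mem hs), mul_zero]
    rintro rfl
    exact hqT (Finset.mem_of_mem_erase hs)
  rw [h4] at h3
  exact one_ne_zero h3

lemma exists_neg_of_sum_nonpos [DecidableEq V] [FiniteDimensional ℝ V] {P T T' : Finset V}
    (hP : GenPos P) (hTP : T ⊆ P) (hT : T.card = Module.finrank ℝ V + 1) (h : Good T)
    (hTP' : T' ⊆ P) (hT' : T'.card = Module.finrank ℝ V + 1) (hne : T ≠ T')
    {t : V} (ht : t ∈ T) (c' : V → ℝ) (hc' : ∀ s ∈ T'.erase t, 0 < c' s)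
    (hs : ∑ s ∈ T'.erase t, c' s * lam T t s ≤ 0) : ∃ s ∈ T'.erase t, lam T t s < 0 := by
  by_contra hcon
  push Not at hcon
  have hz : ∀ s ∈ T'.erase t, c' s * lam T t s = 0 := by
    apply (Finset.sum_eq_zero_iff_of_nonneg _).1
    · exact le_antisymm hs (Finset.sum_nonneg (fun s hs => mul_nonneg (hc' s hs).le (hcon s hs)))
    · intro s hs
      exact mul_nonneg (hc' s hs).le (hcon s hs)
  have hsub : T' ⊆ T := by
    intro s hs
    by_cases hst : s = t
    · rw [hst]; exact ht
    · have hse : s ∈ T'.erase t := Finset.mem_erase.2 ⟨hst, hs⟩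
      have h0 : lam T t s = 0 := by
        rcases mul_eq_zero.1 (hz s hse) with h1 | h1
        · exact absurd h1 (hc' s hse).ne'
        · exact h1
      exact mem_of_lam_eq_zero hP hTP hT h ht (hTP' hs) h0
  exact hne (Finset.eq_of_subset_of_card_le hsub (by rw [hT, hT'])).symm

lemma exists_pos_of_sum_nonneg [DecidableEq V] [FiniteDimensional ℝ V] {P T T' : Finset V}
    (hP : GenPos P) (hTP : T ⊆ P) (hT : T.card = Module.finrank ℝ V + 1) (h : Good T)
    (hTP' : T' ⊆ P) (hT' : T'.card = Module.finrank ℝ V + 1) (hne : T ≠ T')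
    {t : V} (ht : t ∈ T) (c' : V → ℝ) (hc' : ∀ s ∈ T'.erase t, 0 < c' s)
    (hs : 0 ≤ ∑ s ∈ T'.erase t, c' s * lam T t s) : ∃ s ∈ T'.erase t, 0 < lam T t s := by
  by_contra hcon
  push Not at hcon
  have hz : ∀ s ∈ T'.erase t, c' s * lam T t s = 0 := by
    apply (Finset.sum_eq_zero_iff_of_nonpos _).1
    · exact le_antisymm (Finset.sum_nonpos
        (fun s hs => mul_nonpos_of_nonneg_of_nonpos (hc' s hs).le (hcon s hs))) hs
    · intro s hs
      exact mul_nonpos_of_nonneg_of_nonpos (hc' s hs).le (hcon s hs)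
  have hsub : T' ⊆ T := by
    intro s hs
    by_cases hst : s = t
    · rw [hst]; exact ht
    · have hse : s ∈ T'.erase t := Finset.mem_erase.2 ⟨hst, hs⟩
      have h0 : lam T t s = 0 := by
        rcases mul_eq_zero.1 (hz s hse) with h1 | h1
        · exact absurd h1 (hc' s hse).ne'
        · exact h1
      exact mem_of_lam_eq_zero hP hTP hT h ht (hTP' hs) h0
  exact hne (Finset.eq_of_subset_of_card_le hsub (by rw [hT, hT'])).symm

end Geom

end Pool.Agent.Lib.MP_df4edf_co
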