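import Pool.Agent.Lib.MP_df4edf_co.Skew
import Pool.Agent.Lib.MP_df4edf_co.Dir

/-!
The upper bound for `d`-wise interior-intersecting families of simplices.
-/

namespace Pool.Agent.Lib.MP_df4edf_co

open Finset

section Main

variable {V : Type*} [NormedAddCommGroup V] [NormedSpace ℝ V] [FiniteDimensional ℝ V]

/-- A linear functional injective on a finite set. -/
lemma exists_injOn (P : Finset V) : ∃ u : V →ₗ[ℝ] ℝ, ∀ p ∈ P, ∀ q ∈ P, u p = u q → p = q := by
  classical
  obtain ⟨f, hf⟩ := Module.exists_dual_forall_apply_ne_zero (K := ℝ)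
    (fun i : {pq : P × P // pq.1 ≠ pq.2} => ((i.1.1 : V) - (i.1.2 : V)))
    (fun i h => i.2 (Subtype.ext (sub_eq_zero.1 h)))
  refine ⟨f, ?_⟩
  intro p hp q hq h
  by_contra hne
  have := hf ⟨(⟨p, hp⟩, ⟨q, hq⟩), fun he => hne (congrArg Subtype.val he)⟩
  apply this
  simp only [map_sub, h, sub_self]

/-- The upper bound, in a general finite-dimensional normed space. -/
theorem card_le (d : ℕ) (hd : Module.finrank ℝ V = d) (h2 : 2 ≤ d) (P : Finset V)
    (hP : GenPos P) (F : Finset (Finset V)) (hF : ∀ T ∈ F, T ⊆ P ∧ T.card = d + 1)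
    (hint : ∀ G ⊆ F, G.card ≤ d →
      (⋂ T ∈ G, interior (convexHull ℝ (T : Set V))).Nonempty) :
    F.card ≤ ((P.card + d) / 2).choose (d + 1) + ((P.card + d + 1) / 2).choose (d + 1) := by
  classical
  rcases F.eq_empty_or_nonempty with rfl | hFne
  · simp
  obtain ⟨u, hu⟩ := exists_injOn P
  have hgood : ∀ T ∈ F, Good T := fun T hT =>
    Good.of_card (hP T (hF T hT).1 (by rw [hd]; exact (hF T hT).2)) (by rw [hd]; exact (hF T hT).2)
  have hcard : ∀ T ∈ F, T.card = Module.finrank ℝ V + 1 := fun T hT => by
    rw [hd]; exact (hF T hT).2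
  -- the top vertex
  have htop : ∀ T ∈ F, ∃ t ∈ T, ∀ s ∈ T.erase t, u s < u t := by
    intro T hT
    have hne : T.Nonempty := by
      rw [← Finset.card_pos, (hF T hT).2]; omega
    obtain ⟨t, ht, hmax⟩ := Finset.exists_max_image T u hne
    refine ⟨t, ht, ?_⟩
    intro s hs
    rw [Finset.mem_erase] at hs
    refine lt_of_le_of_ne (hmax s hs.2) ?_
    intro he
    exact hs.1 (hu s ((hF T hT).1 hs.2) t ((hF T hT).1 ht) he)
  choose! top htopm htop using htop
  -- common direction
  have hdir : ∀ t : V, ∃ w : V, ∀ T ∈ F.filter (fun T => top T = t), InCone T t w := by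
    intro t
    apply exists_common_direction u t _ (by rw [hd]; omega)
    · intro T hT
      exact hgood T (Finset.mem_filter.1 hT).1
    · intro T hT
      exact hcard T (Finset.mem_filter.1 hT).1
    · intro T hT
      rw [Finset.mem_filter] at hT
      rw [← hT.2]
      exact htopm T hT.1
    · intro T hT
      rw [Finset.mem_filter] at hT
      rw [← hT.2]
      exact htop T hT.1
    · intro G hG hGc
      exact hint G (hG.trans (Finset.filter_subset _ _)) (by rw [hd] at hGc; exact hGc)
  choose w hw using hdir
  have hcone : ∀ T ∈ F, ∃ c : V → ℝ, (∀ s ∈ T.erase (top T), 0 < c s) ∧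
      w (top T) = ∑ s ∈ T.erase (top T), c s • (s - top T) := by
    intro T hT
    exact hw (top T) T (Finset.mem_filter.2 ⟨hT, rfl⟩)
  choose! c hcpos hcw using hcone
  set σ : Finset V → ℝ := fun T => ∑ s ∈ T.erase (top T), c T s with hσ
  set key : Finset V → ℝ ×ₗ ℝ := fun T => toLex (u (top T), - σ T) with hkey
  set Bs : Finset V → Finset V := fun T =>
    P.filter (fun p => p ∉ T ∧ (u p < u (top T) ∧ 0 < lam T (top T) p)) with hBs
  set As : Finset V → Finset V := fun T =>
    P.filter (fun p => p ∉ T ∧ ¬ (u p < u (top T) ∧ 0 < lam T (top T) p)) with hAs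
  have hAB : ∀ T ∈ F, (As T).card + (Bs T).card + (d + 1) = P.card := by
    intro T hT
    have h1 : (P \ T).card = P.card - T.card := Finset.card_sdiff_of_subset (hF T hT).1
    have h2 : T.card ≤ P.card := Finset.card_le_card (hF T hT).1
    have h3 : (As T).card + (Bs T).card = (P \ T).card := by
      rw [add_comm, ← Finset.card_filter_add_card_filter_not (s := P \ T)
        (fun p => u p < u (top T) ∧ 0 < lam T (top T) p)]
      congr 1
      · congr 1
        ext p
        simp only [hBs, Finset.mem_filter, Finset.mem_sdiff]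
        tauto
      · congr 1
        ext p
        simp only [hAs, Finset.mem_filter, Finset.mem_sdiff]
        tauto
    have h4 := (hF T hT).2
    omega
  -- crossing
  have hcross : ∀ T ∈ F, ∀ T' ∈ F, T ≠ T' → key T ≤ key T' →
      (∃ p ∈ As T, p ∈ T') ∧ (∃ p ∈ Bs T', p ∈ T) := by
    intro T hT T' hT' hne hk
    rw [hkey] at hk
    simp only [Prod.Lex.toLex_le_toLex] at hk
    rcases hk with hk | ⟨hk1, hk2⟩
    · constructor
      · refine ⟨top T', ?_, htopm T' hT'⟩
        simp only [hAs, Finset.mem_filter]
        refine ⟨(hF T' hT').1 (htopm T' hT'), ?_, ?_⟩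
        · intro hm
          by_cases he : top T' = top T
          · rw [he] at hk
            exact lt_irrefl _ hk
          · have := htop T hT (top T') (Finset.mem_erase.2 ⟨he, hm⟩)
            exact lt_asymm hk this
        · intro h
          exact lt_asymm hk h.1
      · have hx := hint {T, T'} (by
          intro X hX
          rw [Finset.mem_insert, Finset.mem_singleton] at hX
          rcases hX with rfl | rfl
          · exact hT
          · exact hT') (by
          rw [Finset.card_pair hne]; exact h2)
        obtain ⟨x, hx⟩ := hx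
        rw [Set.mem_iInter₂] at hx
        obtain ⟨p, hp, hpos⟩ := exists_pos_of_common (hgood T hT) (hgood T' hT') (htopm T' hT')
          (hx T (by simp)) (hx T' (by simp))
        have hup : u p < u (top T') := by
          by_cases he : p = top T
          · rw [he]; exact hk
          · exact (htop T hT p (Finset.mem_erase.2 ⟨he, hp⟩)).trans hk
        refine ⟨p, ?_, hp⟩
        simp only [hBs, Finset.mem_filter]
        refine ⟨(hF T hT).1 hp, ?_, hup, hpos⟩
        intro hm
        have hne' : top T' ≠ p := by
          intro he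
          rw [he] at hup
          exact lt_irrefl _ hup
        rw [lam_ne (hgood T' hT') (htopm T' hT') hm hne'] at hpos
        exact lt_irrefl _ hpos
    · have htt : top T = top T' :=
        hu _ ((hF T hT).1 (htopm T hT)) _ ((hF T' hT').1 (htopm T' hT')) hk1
      have hkσ : σ T' ≤ σ T := by linarith
      have hcw' := hcw T' hT'
      have hcpos' := hcpos T' hT'
      have hσT' : σ T' = ∑ s ∈ T'.erase (top T), c T' s := by rw [hσ, htt]
      rw [← htt] at hcw' hcpos'
      have hm := htopm T hT
      have hm' : top T ∈ T' := by rw [htt]; exact htopm T' hT'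
      constructor
      · have hid := cone_identity (hgood T hT) hm (c T) (c T') (hcw T hT) hcw'
        have hle : ∑ s ∈ T'.erase (top T), c T' s * lam T (top T) s ≤ 0 := by
          rw [hid, ← hσT']
          have : σ T = ∑ s ∈ T.erase (top T), c T s := rfl
          rw [← this]
          linarith
        obtain ⟨s, hs, hneg⟩ := exists_neg_of_sum_nonpos hP (hF T hT).1 (hcard T hT) (hgood T hT)
          (hF T' hT').1 (hcard T' hT') hne hm (c T') hcpos' hle
        rw [Finset.mem_erase] at hs
        refine ⟨s, ?_, hs.2⟩
        simp only [hAs, Finset.mem_filter]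
        refine ⟨(hF T' hT').1 hs.2, ?_, fun h => lt_asymm h.2 hneg⟩
        intro hsT
        rw [lam_ne (hgood T hT) hm hsT (Ne.symm hs.1)] at hneg
        exact lt_irrefl _ hneg
      · have hid := cone_identity (hgood T' hT') hm' (c T') (c T) hcw' (hcw T hT)
        have hle : 0 ≤ ∑ s ∈ T.erase (top T), c T s * lam T' (top T) s := by
          rw [hid, ← hσT']
          have : σ T = ∑ s ∈ T.erase (top T), c T s := rfl
          rw [← this]
          linarith
        obtain ⟨s, hs, hpos⟩ := exists_pos_of_sum_nonneg hP (hF T' hT').1 (hcard T' hT')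
          (hgood T' hT') (hF T hT).1 (hcard T hT) hne.symm hm' (c T) (hcpos T hT) hle
        have hs' := hs
        rw [Finset.mem_erase] at hs
        refine ⟨s, ?_, hs.2⟩
        simp only [hBs, Finset.mem_filter]
        rw [← htt]
        refine ⟨(hF T hT).1 hs.2, ?_, htop T hT s hs', hpos⟩
        intro hsT
        rw [lam_ne (hgood T' hT') hm' hsT (Ne.symm hs.1)] at hpos
        exact lt_irrefl _ hpos
  -- the two skew families
  set D := P.card - (d + 1) with hD
  have hPcard : P.card = D + (d + 1) := by
    obtain ⟨T, hT⟩ := hFne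
    have := hAB T hT
    omega
  have hs1 : (F.filter (fun T => (Bs T).card ≤ D / 2)).card ≤ (d + 1 + D / 2).choose (d + 1) := by
    apply skew_bollobas (d + 1) (D / 2) (fun p => u p) _ (fun T => T) Bs key
    · intro T hT p hp q hq he
      rw [Finset.mem_filter] at hT
      exact hu p (Finset.mem_filter.1 hp).1 q ((hF T hT.1).1 hq) he
    · intro T hT
      rw [Finset.mem_filter] at hT
      exact (hF T hT.1).2
    · intro T hT
      rw [Finset.mem_filter] at hT
      exact hT.2
    · intro T hT
      rw [Finset.disjoint_left]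
      intro p hp hpB
      exact (Finset.mem_filter.1 hpB).2.1 hp
    · intro T hT T' hT' hne hk
      rw [Finset.mem_filter] at hT hT'
      obtain ⟨p, hp, hpT⟩ := (hcross T hT.1 T' hT'.1 hne hk).2
      rw [Finset.not_disjoint_iff]
      exact ⟨p, hpT, hp⟩
  have hs2 : (F.filter (fun T => ¬ (Bs T).card ≤ D / 2)).card
      ≤ (d + (D + 1) / 2).choose (d + 1) := by
    rcases (F.filter (fun T => ¬ (Bs T).card ≤ D / 2)).eq_empty_or_nonempty with he | hne
    · rw [he]; simp
    have hDpos : 1 ≤ D := by
      obtain ⟨T, hT⟩ := hne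
      rw [Finset.mem_filter] at hT
      have := hAB T hT.1
      omega
    have hnum : d + (D + 1) / 2 = d + 1 + (D - D / 2 - 1) := by omega
    rw [hnum]
    apply skew_bollobas (d + 1) (D - D / 2 - 1) (fun p => u p) _ (fun T => T) As
      (fun T => OrderDual.toDual (key T))
    · intro T hT p hp q hq he
      rw [Finset.mem_filter] at hT
      exact hu p (Finset.mem_filter.1 hp).1 q ((hF T hT.1).1 hq) he
    · intro T hT
      rw [Finset.mem_filter] at hT
      exact (hF T hT.1).2
    · intro T hT
      rw [Finset.mem_filter] at hT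
      have := hAB T hT.1
      omega
    · intro T hT
      rw [Finset.disjoint_left]
      intro p hp hpB
      exact (Finset.mem_filter.1 hpB).2.1 hp
    · intro T hT T' hT' hne hk
      rw [Finset.mem_filter] at hT hT'
      rw [OrderDual.toDual_le_toDual] at hk
      obtain ⟨p, hp, hpT⟩ := (hcross T' hT'.1 T hT.1 hne.symm hk).1
      rw [Finset.not_disjoint_iff]
      exact ⟨p, hpT, hp⟩
  have hsplit := Finset.card_filter_add_card_filter_not (s := F) (fun T => (Bs T).card ≤ D / 2)
  have e1 : (P.card + d) / 2 = d + (D + 1) / 2 := by omega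
  have e2 : (P.card + d + 1) / 2 = d + 1 + D / 2 := by omega
  rw [e1, e2]
  omega

end Main

end Pool.Agent.Lib.MP_df4edf_co
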