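import Pool.Agent.Lib.MP_df4edf_co.Geom
import Pool.Agent.Lib.MP_df4edf_co.Count

/-!
Points on rays through the moment curve, for which the bound is attained.
-/

namespace Pool.Agent.Lib.MP_df4edf_co

open Finset Polynomial

/-- The vector `(1, i, i^2, ..., i^(d-1))`. -/
noncomputable def mom (d : ℕ) (i : ℕ) : EuclideanSpace ℝ (Fin d) :=
  WithLp.toLp 2 (fun j : Fin d => (i : ℝ) ^ (j : ℕ))

/-- The points of the extremal configuration. -/
noncomputable def pt (d : ℕ) (y : ℝ) (i : ℕ) : EuclideanSpace ℝ (Fin d) := (y ^ i)⁻¹ • mom d i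

/-- The weight of `i` in the affine dependence of the moment vectors. -/
noncomputable def nu (I : Finset ℕ) (i : ℕ) : ℝ := (∏ j ∈ I.erase i, ((i : ℝ) - (j : ℝ)))⁻¹

lemma nu_ne_zero (I : Finset ℕ) (i : ℕ) : nu I i ≠ 0 := by
  unfold nu
  apply inv_ne_zero
  rw [prod_ne_zero_iff]
  intro j hj
  rw [sub_ne_zero]
  intro h
  exact (mem_erase.1 hj).1 (Nat.cast_injective h).symm

lemma sum_nu_pow (d : ℕ) (I : Finset ℕ) (hI : #I = d + 1) (k : ℕ) (hk : k < d) :
    ∑ i ∈ I, nu I i * (i : ℝ) ^ k = 0 := by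
  have h := Lagrange.coeff_eq_sum (s := I) (v := fun i : ℕ => (i : ℝ))
    (fun a _ b _ hab => Nat.cast_injective hab) (P := (X ^ k : ℝ[X])) (by
      rw [degree_X_pow, hI]
      exact_mod_cast (by omega : k < d + 1))
  rw [hI, coeff_X_pow, if_neg (by omega)] at h
  rw [h]
  apply sum_congr rfl
  intro i _
  rw [eval_pow, eval_X, nu, div_eq_mul_inv, mul_comm]

lemma sum_nu_mom (d : ℕ) (I : Finset ℕ) (hI : #I = d + 1) :
    ∑ i ∈ I, nu I i • mom d i = 0 := by
  ext k
  rw [WithLp.ofLp_sum, Finset.sum_apply]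
  simpa [mom] using sum_nu_pow d I hI k k.2

lemma sum_eval_eq_zero (d : ℕ) (I : Finset ℕ) (ω : ℕ → ℝ)
    (hω : ∑ i ∈ I, ω i • mom d i = 0) (p : ℝ[X]) (hp : p.natDegree < d) :
    ∑ i ∈ I, ω i * p.eval (i : ℝ) = 0 := by
  have h1 : ∀ k < d, ∑ i ∈ I, ω i * (i : ℝ) ^ k = 0 := by
    intro k hk
    have := congrArg (fun v : EuclideanSpace ℝ (Fin d) => v ⟨k, hk⟩) hω
    simp only [WithLp.ofLp_sum, Finset.sum_apply] at this
    simpa [mom] using this
  have h2 : ∀ i ∈ I, ω i * p.eval (i : ℝ) = ∑ k ∈ range d, p.coeff k * (ω i * (i : ℝ) ^ k) := by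
    intro i _
    rw [eval_eq_sum_range' hp, mul_sum]
    apply sum_congr rfl
    intro k _
    ring
  rw [sum_congr rfl h2, sum_comm]
  apply sum_eq_zero
  intro k hk
  rw [← mul_sum, h1 k (mem_range.1 hk), mul_zero]

/-- The dependence of `d + 1` moment vectors is unique up to scaling. -/
lemma dependence_unique (d : ℕ) (I : Finset ℕ) (hI : #I = d + 1) (hd : 1 ≤ d) (ω : ℕ → ℝ)
    (hω : ∑ i ∈ I, ω i • mom d i = 0) : ∃ c : ℝ, ∀ i ∈ I, ω i = c * nu I i := by
  have hne : I.Nonempty := by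
    rw [← card_pos, hI]; omega
  obtain ⟨a, ha⟩ := hne
  refine ⟨ω a / nu I a, ?_⟩
  intro b hb
  by_cases hba : b = a
  · rw [hba, div_mul_cancel₀ _ (nu_ne_zero I a)]
  set c := ω a / nu I a with hc
  have h1 : ∑ i ∈ I, (ω i - c * nu I i) • mom d i = 0 := by
    simp only [sub_smul, mul_smul]
    rw [sum_sub_distrib, ← smul_sum, hω, sum_nu_mom d I hI, smul_zero, sub_zero]
  have hinj : Set.InjOn (fun i : ℕ => (i : ℝ)) (I.erase a) :=
    fun x _ y _ hxy => Nat.cast_injective hxy
  have hb' : b ∈ I.erase a := mem_erase.2 ⟨hba, hb⟩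
  have h2 := sum_eval_eq_zero d I _ h1 (Lagrange.basis (I.erase a) (fun i : ℕ => (i : ℝ)) b) (by
    rw [Lagrange.natDegree_basis hinj hb', card_erase_of_mem ha, hI]
    omega)
  rw [← add_sum_erase I _ ha] at h2
  have h3 : ω a - c * nu I a = 0 := by
    rw [hc, div_mul_cancel₀ _ (nu_ne_zero I a), sub_self]
  rw [h3, zero_mul, zero_add, sum_eq_single b] at h2
  · rw [Lagrange.eval_basis_self hinj hb', mul_one] at h2
    linarith
  · intro i hi hib
    rw [Lagrange.eval_basis_of_ne (Ne.symm hib) hi, mul_zero]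
  · intro h
    exact absurd hb' h

/-- The general position polynomial. -/
noncomputable def qPoly (I : Finset ℕ) : ℝ[X] := ∑ i ∈ I, C (nu I i) * X ^ i

lemma qPoly_ne_zero (I : Finset ℕ) (hI : I.Nonempty) : qPoly I ≠ 0 := by
  obtain ⟨a, ha⟩ := hI
  intro h
  have := congrArg (fun p : ℝ[X] => p.coeff a) h
  simp only [qPoly, finsetSum_coeff, coeff_C_mul, coeff_X_pow, coeff_zero] at this
  rw [sum_eq_single a] at this
  · simp at this
    exact nu_ne_zero I a this
  · intro b _ hb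
    rw [if_neg (Ne.symm hb), mul_zero]
  · intro h
    exact absurd ha h

lemma qPoly_eval (I : Finset ℕ) (y : ℝ) : (qPoly I).eval y = ∑ i ∈ I, nu I i * y ^ i := by
  simp [qPoly, eval_finsetSum]

lemma exists_param (d n : ℕ) : ∃ y : ℝ, y < 0 ∧
    ∀ I : Finset ℕ, I ⊆ range n → #I = d + 1 → ∑ i ∈ I, nu I i * y ^ i ≠ 0 := by
  set R : ℝ[X] := ∏ I ∈ powersetCard (d + 1) (range n), qPoly I with hR
  have hR0 : R ≠ 0 := by
    rw [hR, prod_ne_zero_iff]
    intro I hI
    apply qPoly_ne_zero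
    rw [← card_pos, (mem_powersetCard.1 hI).2]
    omega
  by_contra hcon
  push Not at hcon
  apply hR0
  apply Polynomial.eq_zero_of_infinite_isRoot
  apply (Set.Iio_infinite (0 : ℝ)).mono
  intro y hy
  obtain ⟨I, hI, hIc, h0⟩ := hcon y hy
  show R.IsRoot y
  rw [IsRoot.def, hR, eval_prod]
  apply prod_eq_zero (mem_powersetCard.2 ⟨hI, hIc⟩)
  rw [qPoly_eval, h0]

lemma pt_injective (d : ℕ) (hd : 2 ≤ d) (y : ℝ) (hy : y < 0) : Function.Injective (pt d y) := by
  intro i j h
  have h0 := congrArg (fun v : EuclideanSpace ℝ (Fin d) => v ⟨0, by omega⟩) h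
  have h1 := congrArg (fun v : EuclideanSpace ℝ (Fin d) => v ⟨1, by omega⟩) h
  simp [pt, mom] at h0 h1
  rw [h0] at h1
  have h2 : y ^ j ≠ 0 := pow_ne_zero _ hy.ne
  have h3 : (i : ℝ) = j := by
    have := mul_left_cancel₀ (inv_ne_zero h2) h1
    exact this
  exact Nat.cast_injective h3

/-- Affine independence of the points with index set `I`. -/
lemma pt_affineIndependent (d : ℕ) (hd : 1 ≤ d) (y : ℝ) (hy : y < 0) (I : Finset ℕ)
    (hI : #I = d + 1) (h0 : ∑ i ∈ I, nu I i * y ^ i ≠ 0) :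
    AffineIndependent ℝ (fun i : I => pt d y i) := by
  classical
  rw [affineIndependent_iff_of_fintype]
  intro w hw hw' i₀
  rw [Finset.weightedVSub_eq_weightedVSubOfPoint_of_sum_eq_zero _ _ _ hw (0 : EuclideanSpace ℝ (Fin d)),
    Finset.weightedVSubOfPoint_apply] at hw'
  simp only [vsub_eq_sub, sub_zero] at hw'
  set w' : ℕ → ℝ := fun i => if h : i ∈ I then w ⟨i, h⟩ else 0 with hw'def
  have hww : ∀ i : I, w i = w' i := by
    intro i
    simp [hw'def]
  have hs : ∑ i ∈ I, w' i = 0 := by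
    rw [← sum_coe_sort, ← hw]
    exact sum_congr rfl (fun i _ => (hww i).symm)
  have hs' : ∑ i ∈ I, (w' i * (y ^ i)⁻¹) • mom d i = 0 := by
    rw [← sum_coe_sort I (fun i => (w' i * (y ^ i)⁻¹) • mom d i), ← hw']
    apply sum_congr rfl
    intro i _
    rw [mul_smul, ← hww i]
    rfl
  obtain ⟨c, hc⟩ := dependence_unique d I hI hd _ hs'
  have h1 : ∀ i ∈ I, w' i = c * (nu I i * y ^ i) := by
    intro i hi
    have h2 : y ^ i ≠ 0 := pow_ne_zero _ hy.ne
    have h3 := hc i hi
    rw [← div_eq_mul_inv, div_eq_iff h2] at h3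
    rw [h3]; ring
  rw [sum_congr rfl h1, ← mul_sum] at hs
  rcases mul_eq_zero.1 hs with h | h
  · rw [hww i₀, h1 i₀ i₀.2, h, zero_mul]
  · exact absurd h h0

lemma image_affineIndependent (d : ℕ) (hd : 2 ≤ d) (y : ℝ) (hy : y < 0) (I : Finset ℕ)
    (hI : #I = d + 1) (h0 : ∑ i ∈ I, nu I i * y ^ i ≠ 0) [DecidableEq (EuclideanSpace ℝ (Fin d))] :
    AffineIndependent ℝ ((↑) : (I.image (pt d y) : Finset (EuclideanSpace ℝ (Fin d))) →
      EuclideanSpace ℝ (Fin d)) := by
  have h1 := pt_affineIndependent d (by omega) y hy I hI h0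
  have h2 := h1.range
  have h3 : Set.range (fun i : I => pt d y i)
      = ((I.image (pt d y) : Finset (EuclideanSpace ℝ (Fin d))) : Set (EuclideanSpace ℝ (Fin d))) := by
    ext x
    simp
  rw [h3] at h2
  exact h2

lemma sign_nu (I : Finset ℕ) (i : ℕ) (hi : i ∈ I) : 0 < (-1 : ℝ) ^ (above I i) * nu I i := by
  unfold nu above
  rw [← prod_inv_distrib]
  have h1 : I.erase i = I.filter (fun x => i < x) ∪ I.filter (fun x => x < i) := by
    ext x
    simp only [mem_erase, mem_union, mem_filter]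
    constructor
    · rintro ⟨h, hx⟩
      rcases lt_or_gt_of_ne h with h | h
      · exact Or.inr ⟨hx, h⟩
      · exact Or.inl ⟨hx, h⟩
    · rintro (h | h)
      · exact ⟨by omega, h.1⟩
      · exact ⟨by omega, h.1⟩
  have h2 : Disjoint (I.filter (fun x => i < x)) (I.filter (fun x => x < i)) := by
    rw [disjoint_left]
    intro x hx hx'
    rw [mem_filter] at hx hx'
    omega
  rw [h1, prod_union h2, ← mul_assoc, ← prod_const, ← prod_mul_distrib]
  apply mul_pos
  · apply prod_pos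
    intro j hj
    rw [mem_filter] at hj
    have : (i : ℝ) < j := by exact_mod_cast hj.2
    have h3 : (i : ℝ) - j < 0 := by linarith
    have h4 := inv_lt_zero.2 h3
    linarith
  · apply prod_pos
    intro j hj
    rw [mem_filter] at hj
    have : (j : ℝ) < i := by exact_mod_cast hj.2
    exact inv_pos.2 (by linarith)

lemma zero_mem_interior (d : ℕ) (hd : 2 ≤ d) (y : ℝ) (hy : y < 0) (I : Finset ℕ)
    (hI : #I = d + 1) (h0 : ∑ i ∈ I, nu I i * y ^ i ≠ 0) (halt : Alt I)
    [DecidableEq (EuclideanSpace ℝ (Fin d))] :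
    (0 : EuclideanSpace ℝ (Fin d)) ∈ interior (convexHull ℝ
      ((I.image (pt d y) : Finset (EuclideanSpace ℝ (Fin d))) : Set (EuclideanSpace ℝ (Fin d)))) := by
  obtain ⟨c, hc⟩ := halt
  have hcard : #(I.image (pt d y)) = Module.finrank ℝ (EuclideanSpace ℝ (Fin d)) + 1 := by
    rw [card_image_of_injective _ (pt_injective d hd y hy), hI]
    simp
  have hg := Good.of_card (image_affineIndependent d hd y hy I hI h0) hcard
  rw [mem_interior_iff hg]
  -- the positive weights
  set g : ℕ → ℝ := fun i => (-1 : ℝ) ^ c * (nu I i * y ^ i) with hgdef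
  have hgpos : ∀ i ∈ I, 0 < g i := by
    intro i hi
    have h1 := sign_nu I i hi
    have h2 : 0 < (-1 : ℝ) ^ i * y ^ i := by
      rw [← mul_pow]
      exact pow_pos (by linarith) _
    have h3 : (-1 : ℝ) ^ c = (-1 : ℝ) ^ (above I i) * (-1 : ℝ) ^ i := by
      rw [← pow_add, ← hc i hi, neg_one_pow_eq_pow_mod_two (R := ℝ) (above I i + i)]
    have h4 := mul_pos h1 h2
    rw [hgdef]
    simp only
    rw [h3]
    linarith [h4, show (-1 : ℝ) ^ (above I i) * nu I i * ((-1 : ℝ) ^ i * y ^ i)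
      = (-1 : ℝ) ^ (above I i) * (-1 : ℝ) ^ i * (nu I i * y ^ i) by ring]
  have hIne : I.Nonempty := by rw [← card_pos, hI]; omega
  set G : ℝ := ∑ i ∈ I, g i with hG
  have hGpos : 0 < G := sum_pos hgpos hIne
  have hsum : ∑ i ∈ I, g i • pt d y i = 0 := by
    have h1 : ∀ i ∈ I, g i • pt d y i = (-1 : ℝ) ^ c • (nu I i • mom d i) := by
      intro i _
      have h2 : y ^ i ≠ 0 := pow_ne_zero _ hy.ne
      rw [hgdef, pt, smul_smul, smul_smul]
      congr 1
      field_simp
    rw [sum_congr rfl h1, ← smul_sum, sum_nu_mom d I hI, smul_zero]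
  intro p hp
  rw [mem_image] at hp
  obtain ⟨a, ha, rfl⟩ := hp
  have hinj := pt_injective d hd y hy
  -- weights as a function on the space
  set W : EuclideanSpace ℝ (Fin d) → ℝ := fun v => g (Function.invFun (pt d y) v) / G with hW
  have hWpt : ∀ i, W (pt d y i) = g i / G := by
    intro i
    rw [hW]
    simp only
    rw [Function.leftInverse_invFun hinj i]
  have hW1 : ∑ q ∈ I.image (pt d y), W q = 1 := by
    rw [sum_image (fun i _ j _ h => hinj h)]
    simp only [hWpt]
    rw [← sum_div, ← hG, div_self hGpos.ne']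
  have hW2 : ∑ q ∈ I.image (pt d y), W q • q = 0 := by
    rw [sum_image (fun i _ j _ h => hinj h)]
    simp only [hWpt]
    have : ∀ i ∈ I, (g i / G) • pt d y i = G⁻¹ • (g i • pt d y i) := by
      intro i _
      rw [smul_smul, div_eq_mul_inv, mul_comm]
    rw [sum_congr rfl this, ← smul_sum, hsum, smul_zero]
  have h5 := affine_sum (lam (I.image (pt d y)) (pt d y a)) _ W hW1
  rw [hW2] at h5
  rw [h5]
  have ha' : pt d y a ∈ I.image (pt d y) := mem_image_of_mem _ ha
  rw [sum_eq_single (pt d y a)]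
  · rw [lam_self hg ha', mul_one, hWpt]
    exact div_pos (hgpos a ha) hGpos
  · intro q hq hne
    rw [lam_ne hg ha' hq (Ne.symm hne), mul_zero]
  · intro h
    exact absurd ha' h

/-- The configuration. -/
theorem exists_config (d : ℕ) (hd : 2 ≤ d) (n : ℕ) :
    ∃ P : Finset (EuclideanSpace ℝ (Fin d)), #P = n ∧
      (∀ T ⊆ P, #T = d + 1 → AffineIndependent ℝ ((↑) : T → EuclideanSpace ℝ (Fin d))) ∧
      ∃ F : Finset (Finset (EuclideanSpace ℝ (Fin d))),
        (∀ T, T ∈ F ↔ T ⊆ P ∧ #T = d + 1 ∧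
          (0 : EuclideanSpace ℝ (Fin d)) ∈ interior (convexHull ℝ (T : Set _))) ∧
        ((n + d) / 2).choose (d + 1) + ((n + d + 1) / 2).choose (d + 1) ≤ #F := by
  classical
  obtain ⟨y, hy, hgen⟩ := exists_param d n
  have hinj := pt_injective d hd y hy
  refine ⟨(range n).image (pt d y), ?_, ?_, ?_⟩
  · rw [card_image_of_injective _ hinj, card_range]
  · intro T hT hTc
    obtain ⟨I, hI, rfl⟩ := subset_image_iff.1 hT
    rw [card_image_of_injective _ hinj] at hTc
    exact image_affineIndependent d hd y hy I hTc (hgen I (by exact_mod_cast hI) hTc)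
  · refine ⟨((range n).image (pt d y)).powerset.filter (fun T => #T = d + 1 ∧
      (0 : EuclideanSpace ℝ (Fin d)) ∈ interior (convexHull ℝ (T : Set _))), ?_, ?_⟩
    · intro T
      rw [mem_filter, mem_powerset]
    · have hinj2 : Function.Injective (fun I : Finset ℕ => I.image (pt d y)) :=
        image_injective hinj
      have h1 := card_alt d n (((powersetCard (d + 1) (range n))).filter (fun I => Alt I)) (by
        intro I hI hIc hA
        rw [mem_filter, mem_powersetCard]
        exact ⟨⟨hI, hIc⟩, hA⟩)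
      refine h1.trans ?_
      rw [← card_image_of_injective _ hinj2]
      apply card_le_card
      intro T hT
      rw [mem_image] at hT
      obtain ⟨I, hI, rfl⟩ := hT
      rw [mem_filter, mem_powersetCard] at hI
      rw [mem_filter, mem_powerset]
      refine ⟨image_subset_image hI.1.1, ?_, ?_⟩
      · rw [card_image_of_injective _ hinj, hI.1.2]
      · exact zero_mem_interior d hd y hy I hI.1.2 (hgen I hI.1.1 hI.1.2) hI.2

end Pool.Agent.Lib.MP_df4edf_co
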