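import Mathlib

/-!
Skew Bollobas inequality, proved by the polynomial method.
-/

namespace Pool.Agent.Lib.MP_df4edf_co

open Finset

section Skew

variable {α ι K : Type*}

/-- The linear form `sum_l t^l X_l` in `a + 1` variables. -/
noncomputable def linForm (a : ℕ) (t : ℝ) : MvPolynomial (Fin (a + 1)) ℝ :=
  ∑ l : Fin (a + 1), MvPolynomial.C (t ^ (l : ℕ)) * MvPolynomial.X l

/-- The test polynomial attached to a set `B`, homogeneous of degree `b`. -/
noncomputable def gPoly (a b : ℕ) (τ : α → ℝ) (B : Finset α) : MvPolynomial (Fin (a + 1)) ℝ :=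
  MvPolynomial.X (Fin.last a) ^ (b - B.card) * ∏ p ∈ B, linForm a (τ p)

/-- The univariate polynomial with root set `A`. -/
noncomputable def fPoly (τ : α → ℝ) (A : Finset α) : Polynomial ℝ :=
  ∏ q ∈ A, (Polynomial.X - Polynomial.C (τ q))

lemma fPoly_monic (τ : α → ℝ) (A : Finset α) : (fPoly τ A).Monic := by
  unfold fPoly
  exact Polynomial.monic_prod_of_monic _ _ (fun q _ => Polynomial.monic_X_sub_C _)

lemma fPoly_natDegree (τ : α → ℝ) (A : Finset α) : (fPoly τ A).natDegree = A.card := by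
  unfold fPoly
  rw [Polynomial.natDegree_prod_of_monic _ _ (fun q _ => Polynomial.monic_X_sub_C _)]
  simp

lemma fPoly_eval (τ : α → ℝ) (A : Finset α) (t : ℝ) :
    (fPoly τ A).eval t = ∏ q ∈ A, (t - τ q) := by
  unfold fPoly
  rw [Polynomial.eval_prod]
  simp

lemma linForm_homog (a : ℕ) (t : ℝ) : (linForm a t).IsHomogeneous 1 := by
  unfold linForm
  apply MvPolynomial.IsHomogeneous.sum
  intro l _
  exact MvPolynomial.isHomogeneous_C_mul_X _ _

lemma gPoly_homog (a b : ℕ) (τ : α → ℝ) (B : Finset α) (hB : B.card ≤ b) :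
    (gPoly a b τ B).IsHomogeneous b := by
  unfold gPoly
  have h1 : (MvPolynomial.X (Fin.last a) ^ (b - B.card) : MvPolynomial (Fin (a + 1)) ℝ).IsHomogeneous
      (b - B.card) := MvPolynomial.isHomogeneous_X_pow _ _
  have h2 : (∏ p ∈ B, linForm a (τ p)).IsHomogeneous (∑ _p ∈ B, 1) :=
    MvPolynomial.IsHomogeneous.prod _ _ _ (fun p _ => linForm_homog a (τ p))
  have h3 := h1.mul h2
  simp only [sum_const, smul_eq_mul, mul_one] at h3
  rwa [Nat.sub_add_cancel hB] at h3

lemma linForm_eval (a : ℕ) (τ : α → ℝ) (A : Finset α) (hA : A.card = a) (t : ℝ) :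
    MvPolynomial.eval (fun l : Fin (a + 1) => (fPoly τ A).coeff l) (linForm a t)
      = ∏ q ∈ A, (t - τ q) := by
  rw [← fPoly_eval, Polynomial.eval_eq_sum_range, fPoly_natDegree, hA, Finset.sum_range]
  unfold linForm
  rw [map_sum]
  apply Finset.sum_congr rfl
  intro l _
  rw [map_mul, MvPolynomial.eval_C, MvPolynomial.eval_X, mul_comm]

lemma gPoly_eval (a b : ℕ) (τ : α → ℝ) (A B : Finset α) (hA : A.card = a) :
    MvPolynomial.eval (fun l : Fin (a + 1) => (fPoly τ A).coeff l) (gPoly a b τ B)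
      = ∏ p ∈ B, ∏ q ∈ A, (τ p - τ q) := by
  unfold gPoly
  rw [map_mul, map_pow, MvPolynomial.eval_X, map_prod]
  have : (fPoly τ A).coeff ((Fin.last a : Fin (a + 1)) : ℕ) = 1 := by
    rw [Fin.val_last, ← hA, ← fPoly_natDegree τ A]
    exact fPoly_monic τ A
  rw [this, one_pow, one_mul]
  apply Finset.prod_congr rfl
  intro p _
  exact linForm_eval a τ A hA (τ p)

lemma gPoly_eval_ne_zero (a b : ℕ) (τ : α → ℝ) (A B : Finset α)
    (hτ : ∀ p ∈ B, ∀ q ∈ A, τ p = τ q → p = q) (hA : A.card = a) (h : Disjoint A B) :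
    MvPolynomial.eval (fun l : Fin (a + 1) => (fPoly τ A).coeff l) (gPoly a b τ B) ≠ 0 := by
  rw [gPoly_eval a b τ A B hA, Finset.prod_ne_zero_iff]
  intro p hp
  rw [Finset.prod_ne_zero_iff]
  intro q hq
  rw [sub_ne_zero]
  intro he
  exact Finset.disjoint_left.mp h hq (hτ p hp q hq he ▸ hp)

lemma gPoly_eval_eq_zero (a b : ℕ) (τ : α → ℝ)
    (A B : Finset α) (hA : A.card = a) (h : ¬ Disjoint A B) :
    MvPolynomial.eval (fun l : Fin (a + 1) => (fPoly τ A).coeff l) (gPoly a b τ B) = 0 := by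
  rw [gPoly_eval a b τ A B hA]
  rw [Finset.not_disjoint_iff] at h
  obtain ⟨x, hxA, hxB⟩ := h
  apply Finset.prod_eq_zero hxB
  exact Finset.prod_eq_zero hxA (sub_self _)

/-- Skew Bollobas inequality for finite families, indexed by a finset `s` with a preorder key. -/
theorem skew_bollobas [LinearOrder K] (a b : ℕ) (τ : α → ℝ)
    (s : Finset ι) (A B : ι → Finset α) (key : ι → K)
    (hτ : ∀ i ∈ s, ∀ p ∈ B i, ∀ q ∈ A i, τ p = τ q → p = q)
    (hA : ∀ i ∈ s, (A i).card = a) (hB : ∀ i ∈ s, (B i).card ≤ b)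
    (hdisj : ∀ i ∈ s, Disjoint (A i) (B i))
    (hcross : ∀ i ∈ s, ∀ j ∈ s, i ≠ j → key i ≤ key j → ¬ Disjoint (A i) (B j)) :
    s.card ≤ (a + b).choose a := by
  classical
  set W : Submodule ℝ (MvPolynomial (Fin (a + 1)) ℝ) :=
    MvPolynomial.restrictSupport ℝ
      (((Finset.univ : Finset (Fin (a + 1))).finsuppAntidiag b : Finset _) :
        Set (Fin (a + 1) →₀ ℕ)) with hW
  have hfin : Module.finrank ℝ W = (a + b).choose a := by
    rw [Module.finrank_eq_card_basis (MvPolynomial.basisRestrictSupport ℝ _)]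
    rw [← Nat.card_eq_fintype_card, Nat.card_coe_set_eq, Set.ncard_coe_finset,
      Finset.card_finsuppAntidiag_nat_eq_choose]
    rw [Finset.card_univ, Fintype.card_fin]
    have : a + 1 + b - 1 = a + b := by omega
    rw [this, Nat.choose_symm_add]
  have hWfin : Module.Finite ℝ W :=
    Module.Finite.of_basis (MvPolynomial.basisRestrictSupport ℝ _)
  have hmem : ∀ i : s, gPoly a b τ (B i) ∈ W := by
    intro i
    rw [hW, MvPolynomial.mem_restrictSupport_iff]
    intro m hm
    have h := gPoly_homog a b τ (B i) (hB i i.2)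
    rw [Finset.mem_coe, MvPolynomial.mem_support_iff] at hm
    have h2 := h hm
    rw [Finset.mem_coe, Finset.mem_finsuppAntidiag]
    refine ⟨?_, Finset.subset_univ _⟩
    rw [← h2, Finsupp.weight_apply]
    rw [Finsupp.sum_fintype _ _ (by simp)]
    simp
  have hlin : LinearIndependent ℝ (fun i : s => (⟨gPoly a b τ (B i), hmem i⟩ : W)) := by
    rw [Fintype.linearIndependent_iff]
    intro c hc
    by_contra hne
    push Not at hne
    obtain ⟨i₀, hi₀⟩ := hne
    obtain ⟨i, hi, hmin⟩ := Finset.exists_min_image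
      (Finset.univ.filter (fun i : s => c i ≠ 0)) (fun i : s => key i) ⟨i₀, by simp [hi₀]⟩
    have hc' : ∑ j : s, c j • gPoly a b τ (B j) = 0 := by
      have := congrArg (fun w : W => (w : MvPolynomial (Fin (a + 1)) ℝ)) hc
      simpa using this
    have hev := congrArg
      (MvPolynomial.eval (fun l : Fin (a + 1) => (fPoly τ (A i)).coeff l)) hc'
    rw [map_sum, map_zero] at hev
    rw [Finset.sum_eq_single i] at hev
    · rw [MvPolynomial.smul_eval] at hev
      rcases mul_eq_zero.mp hev with h | h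
      · simp at hi
        exact hi h
      · exact gPoly_eval_ne_zero a b τ (A i) (B i) (hτ i i.2) (hA i i.2) (hdisj i i.2) h
    · intro j _ hji
      rw [MvPolynomial.smul_eval]
      by_cases hcj : c j = 0
      · rw [hcj, zero_mul]
      · have hk : key i ≤ key j := hmin j (by simp [hcj])
        rw [gPoly_eval_eq_zero a b τ (A i) (B j) (hA i i.2)
          (hcross i i.2 j j.2 (fun h => hji (Subtype.ext h.symm)) hk), mul_zero]
    · intro h
      exact absurd (Finset.mem_univ _) h
  have := hlin.fintype_card_le_finrank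
  rw [hfin, Fintype.card_coe] at this
  exact this

end Skew

end Pool.Agent.Lib.MP_df4edf_co
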